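import Mathlib
import Pool.Agent.Helper332.CPB.Forcing
import Pool.Agent.Helper332.CPB.Main

/-!
# Point-countable `π`-bases of `C_p(X)` for scattered compact `X`

It is consistent with ZFC that there is a scattered compact space `X` such that no `π`-base of
`C_p(X)` is point-countable.
-/

set_option autoImplicit false

namespace Pool.Agent.Results.MP_c0a969_gt.NotProvable

open Pool.Agent.Helper332.CPB (CapHolds)
open Pool.Agent.Helper332.CPBTop (CapturingSystem)

/-- (1) Some forcing notion forces that there is a capturing system of initial neighbourhoods on the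
(ground model) initial ordinal of the successor of the continuum. (2) If there is a capturing system
on a well-ordered set, then there is a scattered compact Hausdorff space `X` such that the set of
continuous real functions on `X` with the topology of pointwise convergence has no point-countable
`π`-base. -/
theorem result :
    (∃ (P : Type) (_ : Preorder P), Nonempty P ∧ ∀ p : P, p ∈ CapHolds P) ∧
    (CapturingSystem →
      ∃ (X : Type) (_ : TopologicalSpace X) (_ : T2Space X) (_ : CompactSpace X),
        (∀ s : Set X, s.Nonempty → ∃ x ∈ s, ∃ U : Set X, IsOpen U ∧ U ∩ s = {x}) ∧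
        ¬ ∃ 𝓑 : Set (Set C(X, ℝ)),
          (∀ B ∈ 𝓑,
            @IsOpen C(X, ℝ)
              (TopologicalSpace.induced (fun f : C(X, ℝ) => (f : X → ℝ)) inferInstance) B
            ∧ B.Nonempty) ∧
          (∀ U : Set C(X, ℝ),
            @IsOpen C(X, ℝ)
              (TopologicalSpace.induced (fun f : C(X, ℝ) => (f : X → ℝ)) inferInstance) U →
            U.Nonempty → ∃ B ∈ 𝓑, B ⊆ U) ∧
          (∀ f : C(X, ℝ), {B ∈ 𝓑 | f ∈ B}.Countable)) :=
  ⟨Pool.Agent.Helper332.CPB.exists_forcing, Pool.Agent.Helper332.CPBTop.space_of_system⟩

end Pool.Agent.Results.MP_c0a969_gt.NotProvable
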