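import Mathlib

set_option autoImplicit false

open Set TopologicalSpace Topology

namespace Pool.Agent.Results.MP_c0a969_gt.SizeAlephOne

section Rank

variable {X : Type} [TopologicalSpace X]

/-- scattered spaces are right separated by an injective rank function -/
theorem exists_rank [Nonempty X]
    (hs : ∀ s : Set X, s.Nonempty → ∃ x ∈ s, ∃ U : Set X, IsOpen U ∧ U ∩ s = {x}) :
    ∃ ρ : X → Ordinal.{0}, Function.Injective ρ ∧
      ∀ x, ∃ U : Set X, IsOpen U ∧ x ∈ U ∧ ∀ y ∈ U, y ≠ x → ρ y < ρ x := by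
  classical
  let pick : Set X → X := fun s =>
    if h : s.Nonempty then Classical.choose (hs s h) else Classical.arbitrary X
  have hpick : ∀ s : Set X, s.Nonempty → pick s ∈ s ∧ ∃ U : Set X, IsOpen U ∧ U ∩ s = {pick s} := by
    intro s h
    have := Classical.choose_spec (hs s h)
    simp only [pick, dif_pos h]
    exact this
  let f : Ordinal.{0} → X := WellFounded.fix (C := fun _ => X)
    (wellFounded_lt : WellFounded ((· < ·) : Ordinal.{0} → Ordinal.{0} → Prop))
    (fun a F => pick {x | ∃ (b : Ordinal.{0}) (h : b < a), F b h = x}ᶜ)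
  have hf : ∀ a, f a = pick {x | ∃ b < a, f b = x}ᶜ := by
    intro a
    have := WellFounded.fix_eq (C := fun _ => X)
      (wellFounded_lt : WellFounded ((· < ·) : Ordinal.{0} → Ordinal.{0} → Prop))
      (fun a F => pick {x | ∃ (b : Ordinal.{0}) (h : b < a), F b h = x}ᶜ) a
    show f a = _
    rw [show f a = _ from this]
    congr 1
    ext x
    simp only [mem_compl_iff, mem_setOf_eq, exists_prop]
    rfl
  let G : Ordinal.{0} → Set X := fun a => {x | ∃ b < a, f b = x}
  have hGstep : ∀ a, IsOpen (G a) → IsOpen (insert (f a) (G a)) := by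
    intro a ha
    by_cases hne : ((G a)ᶜ).Nonempty
    · obtain ⟨h1, U, hU, hUG⟩ := hpick _ hne
      rw [← hf a] at h1 hUG
      have : insert (f a) (G a) = G a ∪ U := by
        ext x
        simp only [mem_insert_iff, mem_union]
        constructor
        · rintro (rfl | hx)
          · right
            have : f a ∈ U ∩ (G a)ᶜ := by rw [hUG]; exact mem_singleton _
            exact this.1
          · exact Or.inl hx
        · rintro (hx | hx)
          · exact Or.inr hx
          · by_cases hxG : x ∈ G a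
            · exact Or.inr hxG
            · left
              have : x ∈ U ∩ (G a)ᶜ := ⟨hx, hxG⟩
              rw [hUG] at this
              exact this
      rw [this]
      exact ha.union hU
    · have : G a = univ := by
        rw [not_nonempty_iff_eq_empty, compl_empty_iff] at hne
        exact hne
      rw [this, insert_eq_of_mem (mem_univ _)]
      exact isOpen_univ
  have hG : ∀ a, IsOpen (G a) := by
    intro a
    induction a using WellFoundedLT.induction with
    | ind a ih =>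
      have : G a = ⋃ b : {b // b < a}, insert (f b) (G b) := by
        ext x
        simp only [mem_iUnion, mem_insert_iff, Subtype.exists]
        constructor
        · rintro ⟨b, hb, rfl⟩
          exact ⟨b, hb, Or.inl rfl⟩
        · rintro ⟨b, hb, rfl | ⟨c, hc, rfl⟩⟩
          · exact ⟨b, hb, rfl⟩
          · exact ⟨c, hc.trans hb, rfl⟩
      rw [this]
      exact isOpen_iUnion fun b => hGstep b (ih b b.2)
  have hex : ∃ a, G a = univ := by
    by_contra hcon
    push Not at hcon
    have hinj : Function.Injective f := by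
      have hne : ∀ a b, a < b → f a ≠ f b := by
        intro a b hab he
        have h1 := (hpick (G b)ᶜ (by
          rw [nonempty_compl]
          exact hcon b)).1
        rw [← hf b] at h1
        exact h1 ⟨a, hab, he⟩
      intro a b hab
      by_contra hne'
      rcases lt_or_gt_of_ne hne' with h | h
      · exact hne a b h hab
      · exact hne b a h hab.symm
    exact not_injective_of_ordinal f hinj
  obtain ⟨a0, ha0⟩ := hex
  have hsurj : ∀ x, ∃ b, f b = x := by
    intro x
    have : x ∈ G a0 := by rw [ha0]; exact mem_univ _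
    obtain ⟨b, _, hb⟩ := this
    exact ⟨b, hb⟩
  let ρ : X → Ordinal.{0} := fun x => sInf {b | f b = x}
  have hρ : ∀ x, f (ρ x) = x := fun x => csInf_mem (s := {b | f b = x}) (hsurj x)
  have hmin : ∀ x b, f b = x → ρ x ≤ b := fun x b hb => csInf_le (OrderBot.bddBelow _) hb
  refine ⟨ρ, fun x y hxy => by rw [← hρ x, ← hρ y, hxy], fun x => ?_⟩
  refine ⟨insert x (G (ρ x)), ?_, mem_insert _ _, ?_⟩
  · have := hGstep (ρ x) (hG _)
    rwa [hρ x] at this
  · rintro y (rfl | ⟨b, hb, rfl⟩) hne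
    · exact absurd rfl hne
    · exact (hmin _ b rfl).trans_lt hb

theorem totDisc [T2Space X]
    (hs : ∀ s : Set X, s.Nonempty → ∃ x ∈ s, ∃ U : Set X, IsOpen U ∧ U ∩ s = {x}) :
    TotallyDisconnectedSpace X := by
  constructor
  intro s _ hpre x hx y hy
  by_contra hxy
  obtain ⟨z, hz, U, hU, hUs⟩ := hs s ⟨x, hx⟩
  have hzU : z ∈ U ∩ s := by rw [hUs]; exact mem_singleton z
  have hne : (s ∩ {z}ᶜ).Nonempty := by
    by_cases hxz : x = z
    · exact ⟨y, hy, fun h => hxy (hxz.trans h.symm)⟩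
    · exact ⟨x, hx, hxz⟩
  obtain ⟨w, hws, hwU, hwz⟩ := hpre U {z}ᶜ hU isClosed_singleton.isOpen_compl
    (by
      intro a ha
      by_cases haz : a = z
      · left
        rw [haz]; exact hzU.1
      · exact Or.inr haz) ⟨z, hz, hzU.1⟩ hne
  have : w ∈ U ∩ s := ⟨hwU, hws⟩
  rw [hUs] at this
  exact hwz this

end Rank

section Comb

variable {X : Type} (ρ : X → Ordinal.{0}) (U : X → Set X)

/-- finite combinations -/
def At (P N : Set X) : Set X := {a | (∀ z ∈ P, a ∈ U z) ∧ ∀ z ∈ N, a ∉ U z}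

def IsTop (y : X) (S : Set X) : Prop := y ∈ S ∧ ∀ z ∈ S, z ≠ y → ρ z < ρ y

theorem top_unique {S : Set X} {y y' : X} (h : IsTop ρ y S) (h' : IsTop ρ y' S) : y = y' := by
  by_contra hne
  exact lt_asymm (h.2 y' h'.1 (Ne.symm hne)) (h'.2 y h.1 hne)

/-- closed under tops of finite combinations -/
def Cld (Y : Set X) : Prop :=
  ∀ P N : Set X, P.Finite → N.Finite → P ⊆ Y → N ⊆ Y → ∀ y, IsTop ρ y (At U P N) → y ∈ Y

def stepc (S : Set X) : Set X :=
  S ∪ ⋃ P ∈ {t : Set X | t.Finite ∧ t ⊆ S}, ⋃ N ∈ {t : Set X | t.Finite ∧ t ⊆ S},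
    {y | IsTop ρ y (At U P N)}

theorem stepc_countable {S : Set X} (hS : S.Countable) : (stepc ρ U S).Countable := by
  have h1 : {t : Set X | t.Finite ∧ t ⊆ S}.Countable := Set.countable_setOf_finite_subset hS
  refine hS.union (h1.biUnion fun P _ => h1.biUnion fun N _ => ?_)
  apply Set.Subsingleton.countable
  intro y hy y' hy'
  exact top_unique ρ hy hy'

def clo (S : Set X) : Set X := ⋃ n : ℕ, (stepc ρ U)^[n] S

theorem iter_mono (S : Set X) : Monotone fun n : ℕ => (stepc ρ U)^[n] S := by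
  apply monotone_nat_of_le_succ
  intro n
  simp only [Function.iterate_succ', Function.comp]
  exact subset_union_left

theorem sub_clo (S : Set X) : S ⊆ clo ρ U S := fun x hx => mem_iUnion.2 ⟨0, hx⟩

theorem clo_countable {S : Set X} (hS : S.Countable) : (clo ρ U S).Countable := by
  refine countable_iUnion fun n => ?_
  induction n with
  | zero => exact hS
  | succ n ih =>
    rw [Function.iterate_succ', Function.comp]
    exact stepc_countable ρ U ih

theorem fin_sub_iter (S : Set X) {P : Set X} (hP : P.Finite) (hPS : P ⊆ clo ρ U S) :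
    ∃ n, P ⊆ (stepc ρ U)^[n] S := by
  induction P, hP using Set.Finite.induction_on with
  | empty => exact ⟨0, empty_subset _⟩
  | @insert a P _ _ ih =>
    obtain ⟨n, hn⟩ := ih ((subset_insert _ _).trans hPS)
    obtain ⟨m, hm⟩ := mem_iUnion.1 (hPS (mem_insert a P))
    refine ⟨max n m, insert_subset ?_ ?_⟩
    · exact iter_mono ρ U S (le_max_right n m) hm
    · exact hn.trans (iter_mono ρ U S (le_max_left n m))

theorem clo_cld (S : Set X) : Cld ρ U (clo ρ U S) := by
  intro P N hP hN hPS hNS y hy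
  obtain ⟨n, hn⟩ := fin_sub_iter ρ U S hP hPS
  obtain ⟨m, hm⟩ := fin_sub_iter ρ U S hN hNS
  refine mem_iUnion.2 ⟨max n m + 1, ?_⟩
  rw [Function.iterate_succ', Function.comp]
  refine Or.inr (mem_biUnion (show P ∈ {t : Set X | t.Finite ∧ t ⊆ _} from
    ⟨hP, hn.trans (iter_mono ρ U S (le_max_left n m))⟩)
    (mem_biUnion (show N ∈ {t : Set X | t.Finite ∧ t ⊆ _} from
    ⟨hN, hm.trans (iter_mono ρ U S (le_max_right n m))⟩) hy))

theorem clo_min {S Y : Set X} (hY : Cld ρ U Y) (hSY : S ⊆ Y) : clo ρ U S ⊆ Y := by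
  refine iUnion_subset fun n => ?_
  induction n with
  | zero => exact hSY
  | succ n ih =>
    rw [Function.iterate_succ', Function.comp]
    rintro y (hy | hy)
    · exact ih hy
    · simp only [mem_iUnion, mem_setOf_eq, exists_prop] at hy
      obtain ⟨P, ⟨hP, hPS⟩, N, ⟨hN, hNS⟩, hy⟩ := hy
      exact hY P N hP hN (hPS.trans ih) (hNS.trans ih) y hy

/-- the retraction -/
theorem retract (htop : ∀ P N : Set X, P.Finite → N.Finite → (At U P N).Nonempty →
      ∃ y, IsTop ρ y (At U P N)) {Y : Set X} (hY : Cld ρ U Y) (x : X) :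
    ∃ y ∈ Y, ∀ z ∈ Y, (x ∈ U z ↔ y ∈ U z) := by
  let S : Set X := {y | ∃ P N : Set X, P.Finite ∧ N.Finite ∧ P ⊆ Y ∧ N ⊆ Y ∧ x ∈ At U P N ∧
    IsTop ρ y (At U P N)}
  have hne : S.Nonempty := by
    have hx : x ∈ At U ∅ ∅ := ⟨by simp, by simp⟩
    obtain ⟨y, hy⟩ := htop ∅ ∅ finite_empty finite_empty ⟨x, hx⟩
    exact ⟨y, ∅, ∅, finite_empty, finite_empty, empty_subset _, empty_subset _, hx, hy⟩
  obtain ⟨y, ⟨P, N, hP, hN, hPY, hNY, hx, hy⟩, hmin⟩ := WellFounded.has_min
    (InvImage.wf ρ (wellFounded_lt : WellFounded ((· < ·) : Ordinal.{0} → Ordinal.{0} → Prop)))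
    S hne
  refine ⟨y, hY P N hP hN hPY hNY y hy, fun z hz => ?_⟩
  by_contra hcon
  have key : ∀ P' N' : Set X, P'.Finite → N'.Finite → P' ⊆ Y → N' ⊆ Y → x ∈ At U P' N' →
      At U P' N' ⊆ At U P N → y ∉ At U P' N' → False := by
    intro P' N' hP' hN' hPY' hNY' hx' hsub hy'
    obtain ⟨y2, hy2⟩ := htop P' N' hP' hN' ⟨x, hx'⟩
    apply hmin y2 ⟨P', N', hP', hN', hPY', hNY', hx', hy2⟩
    apply hy.2 y2 (hsub hy2.1)
    rintro rfl
    exact hy' hy2.1
  by_cases hxz : x ∈ U z
  · have hyz : y ∉ U z := fun h => hcon ⟨fun _ => h, fun _ => hxz⟩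
    refine key (insert z P) N (hP.insert z) hN (insert_subset hz hPY) hNY ?_ ?_ ?_
    · refine ⟨?_, hx.2⟩
      rintro w (rfl | hw)
      · exact hxz
      · exact hx.1 w hw
    · intro a ha
      exact ⟨fun w hw => ha.1 w (mem_insert_of_mem _ hw), ha.2⟩
    · intro h
      exact hyz (h.1 z (mem_insert _ _))
  · have hyz : y ∈ U z := by
      by_contra h
      exact hcon ⟨fun h' => absurd h' hxz, fun h' => absurd h' h⟩
    refine key P (insert z N) hP (hN.insert z) hPY (insert_subset hz hNY) ?_ ?_ ?_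
    · refine ⟨hx.1, ?_⟩
      rintro w (rfl | hw)
      · exact hxz
      · exact hx.2 w hw
    · intro a ha
      exact ⟨ha.1, fun w hw => ha.2 w (mem_insert_of_mem _ hw)⟩
    · intro h
      exact h.2 z (mem_insert _ _) hyz

end Comb

/-- the index set: a well-order of type `ω₁` -/
abbrev W1 : Type := (Cardinal.aleph 1).ord.ToType

theorem countable_Iio (a : W1) : (Set.Iio a).Countable := by
  have h := Cardinal.mk_Iio_ord_toType a
  rw [← Cardinal.le_aleph0_iff_set_countable]
  exact Order.lt_succ_iff.1 (h.trans_eq Cardinal.succ_aleph0.symm)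

theorem countable_Iic (a : W1) : (Set.Iic a).Countable := by
  have : Set.Iic a = insert a (Set.Iio a) := by
    ext x
    simp only [mem_Iic, mem_insert_iff, mem_Iio]
    exact le_iff_eq_or_lt
  rw [this]
  exact (countable_Iio a).insert a

theorem bdd_of_countable {S : Set W1} (hS : S.Countable) : ∃ a : W1, ∀ s ∈ S, s < a := by
  by_contra hcon
  push Not at hcon
  have hcov : (univ : Set W1) ⊆ ⋃ s ∈ S, Set.Iic s := by
    intro a _
    obtain ⟨s, hs, has⟩ := hcon a
    exact mem_biUnion hs has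
  have hc : (univ : Set W1).Countable := (hS.biUnion fun s _ => countable_Iic s).mono hcov
  have h1 : Cardinal.mk W1 ≤ Cardinal.aleph0 := by
    rw [← Cardinal.mk_univ]
    exact Cardinal.le_aleph0_iff_set_countable.2 hc
  rw [Cardinal.mk_ord_toType] at h1
  exact absurd h1 (not_le.2 Cardinal.aleph0_lt_aleph_one)

section Main

variable {X : Type} [TopologicalSpace X] [T2Space X] [CompactSpace X]

/-- rare pairs -/
theorem rare_pairs
    (hs : ∀ s : Set X, s.Nonempty → ∃ x ∈ s, ∃ U : Set X, IsOpen U ∧ U ∩ s = {x})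
    (hcard : Cardinal.mk X ≤ Cardinal.aleph 1) (hunc : Uncountable X) :
    ∃ (B : Set X) (y : X → X), ¬ B.Countable ∧ (∀ x ∈ B, y x ≠ x) ∧
      ∀ f : C(X, ℝ), {x ∈ B | f x ≠ f (y x)}.Countable := by
  classical
  have hne : Nonempty X := by
    by_contra h
    rw [not_nonempty_iff] at h
    exact hunc.not_countable inferInstance
  obtain ⟨ρ, hρi, hρ⟩ := exists_rank hs
  haveI := totDisc hs
  have hU : ∀ x, ∃ V : Set X, IsClopen V ∧ x ∈ V ∧ ∀ y ∈ V, y ≠ x → ρ y < ρ x := by
    intro x
    obtain ⟨O, hO, hxO, hO2⟩ := hρ x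
    obtain ⟨V, hV, hxV, hVO⟩ := compact_exists_isClopen_in_isOpen hO hxO
    exact ⟨V, hV, hxV, fun y hy => hO2 y (hVO hy)⟩
  choose U hU1 hU2 hU3 using hU
  have htop : ∀ P N : Set X, P.Finite → N.Finite → (At U P N).Nonempty →
      ∃ y, IsTop ρ y (At U P N) := by
    intro P N hP hN hne
    have hcl : IsClosed (At U P N) := by
      have : At U P N = (⋂ z ∈ P, U z) ∩ ⋂ z ∈ N, (U z)ᶜ := by
        ext a
        simp only [At, mem_setOf_eq, mem_inter_iff, mem_iInter, mem_compl_iff]
      rw [this]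
      exact (isClosed_biInter fun z _ => (hU1 z).1).inter
        (isClosed_biInter fun z _ => (hU1 z).2.isClosed_compl)
    obtain ⟨t, htA, htc⟩ := hcl.isCompact.elim_nhds_subcover U
      (fun x _ => (hU1 x).2.mem_nhds (hU2 x))
    have htne : t.Nonempty := by
      obtain ⟨x, hx⟩ := hne
      obtain ⟨z, hz, _⟩ := mem_iUnion₂.1 (htc hx)
      exact ⟨z, hz⟩
    obtain ⟨y, hy, hymax⟩ := t.exists_max_image ρ htne
    refine ⟨y, htA y hy, fun z hz hzy => ?_⟩
    obtain ⟨w, hw, hzw⟩ := mem_iUnion₂.1 (htc hz)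
    have h1 : ρ w ≤ ρ y := hymax w hw
    by_cases h2 : z = w
    · rw [← h2] at h1
      exact lt_of_le_of_ne h1 (fun h => hzy (hρi h))
    · exact (hU3 w z hzw h2).trans_le h1
  have hcard' : Cardinal.mk X ≤ Cardinal.mk W1 := by
    rw [Cardinal.mk_ord_toType]; exact hcard
  obtain ⟨e⟩ := hcard'
  let S : X → Set X := fun x => clo ρ U {z | e z < e x}
  have hScd : ∀ x, (S x).Countable := fun x =>
    clo_countable ρ U ((countable_Iio (e x)).preimage e.injective)
  have hret : ∀ x, ∃ y ∈ S x, ∀ z ∈ S x, (x ∈ U z ↔ y ∈ U z) := fun x =>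
    retract ρ U htop (clo_cld ρ U _) x
  choose y hy1 hy2 using hret
  refine ⟨{x | x ∉ S x}, y, ?_, ?_, ?_⟩
  · intro hc
    obtain ⟨a, ha⟩ := bdd_of_countable (hc.image e)
    have hall : ∀ w : W1, ∀ x : X, e x = w → x ∈ clo ρ U {z | e z < a} := by
      intro w
      induction w using WellFoundedLT.induction with
      | ind w ih =>
        intro x hx
        by_cases hxB : x ∈ S x
        · apply clo_min ρ U (clo_cld ρ U {z | e z < a}) (S := {z | e z < e x}) _ hxB
          intro z hz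
          exact ih (e z) (by rw [← hx]; exact hz) z rfl
        · exact sub_clo ρ U _ (ha (e x) ⟨x, hxB, rfl⟩)
    have hcc : (univ : Set X).Countable :=
      (clo_countable ρ U ((countable_Iio a).preimage e.injective)).mono
        (fun x _ => hall (e x) x rfl)
    exact hunc.not_countable (countable_univ_iff.1 hcc)
  · intro x hx h
    have h1 : y x ∈ S x := hy1 x
    exact hx ((congrArg (fun z => z ∈ S x) h).mp h1)
  · intro f
    -- the algebra of countably determined functions
    let 𝔅 : Subalgebra ℝ C(X, ℝ) :=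
      { carrier := {g | ∃ Z : Set X, Z.Countable ∧
          ∀ a b : X, (∀ z ∈ Z, (a ∈ U z ↔ b ∈ U z)) → g a = g b}
        mul_mem' := by
          rintro g g' ⟨Z, hZ, h⟩ ⟨Z', hZ', h'⟩
          refine ⟨Z ∪ Z', hZ.union hZ', fun a b hab => ?_⟩
          have h1 := h a b fun z hz => hab z (Or.inl hz)
          have h2 := h' a b fun z hz => hab z (Or.inr hz)
          simp only [ContinuousMap.mul_apply, h1, h2]
        add_mem' := by
          rintro g g' ⟨Z, hZ, h⟩ ⟨Z', hZ', h'⟩
          refine ⟨Z ∪ Z', hZ.union hZ', fun a b hab => ?_⟩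
          have h1 := h a b fun z hz => hab z (Or.inl hz)
          have h2 := h' a b fun z hz => hab z (Or.inr hz)
          simp only [ContinuousMap.add_apply, h1, h2]
        algebraMap_mem' := by
          intro r
          exact ⟨∅, countable_empty, fun a b _ => rfl⟩ }
    have hsep : 𝔅.SeparatesPoints := by
      have hone : ∀ a b : X, ρ a < ρ b → ∃ g ∈ 𝔅, g a ≠ g b := by
        intro a b hab
        have hcont : Continuous ((U a).indicator (fun _ => (1 : ℝ))) :=
          (hU1 a).continuous_indicator continuous_const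
        refine ⟨⟨_, hcont⟩, ⟨{a}, countable_singleton a, ?_⟩, ?_⟩
        · intro c d hcd
          have := hcd a (mem_singleton a)
          show (U a).indicator (fun _ => (1 : ℝ)) c = (U a).indicator (fun _ => (1 : ℝ)) d
          by_cases hc : c ∈ U a
          · rw [indicator_of_mem hc, indicator_of_mem (this.1 hc)]
          · rw [indicator_of_notMem hc, indicator_of_notMem (fun h => hc (this.2 h))]
        · show (U a).indicator (fun _ => (1 : ℝ)) a ≠ (U a).indicator (fun _ => (1 : ℝ)) b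
          rw [indicator_of_mem (hU2 a), indicator_of_notMem]
          · exact one_ne_zero
          · intro hb
            by_cases hba : b = a
            · rw [hba] at hab; exact lt_irrefl _ hab
            · exact lt_asymm hab (hU3 a b hb hba)
      intro a b hab
      rcases lt_or_gt_of_ne (fun h => hab (hρi h) : ρ a ≠ ρ b) with h | h
      · obtain ⟨g, hg, hg'⟩ := hone a b h
        exact ⟨g, ⟨g, hg, rfl⟩, hg'⟩
      · obtain ⟨g, hg, hg'⟩ := hone b a h
        exact ⟨g, ⟨g, hg, rfl⟩, fun h' => hg' h'.symm⟩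
    have hSW := ContinuousMap.subalgebra_topologicalClosure_eq_top_of_separatesPoints 𝔅 hsep
    have hf : f ∈ 𝔅.topologicalClosure := by rw [hSW]; exact Algebra.mem_top
    have hf' : f ∈ closure (𝔅 : Set C(X, ℝ)) := by
      rw [← Subalgebra.topologicalClosure_coe]
      exact hf
    rw [Metric.mem_closure_iff] at hf'
    have hseq : ∀ n : ℕ, ∃ Z : Set X, Z.Countable ∧ ∃ g : C(X, ℝ), dist f g < 1 / (n + 1 : ℝ) ∧
        ∀ a b : X, (∀ z ∈ Z, (a ∈ U z ↔ b ∈ U z)) → g a = g b := by
      intro n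
      obtain ⟨g, ⟨Z, hZ, hg⟩, hfg⟩ := hf' (1 / (n + 1 : ℝ)) (by positivity)
      exact ⟨Z, hZ, g, hfg, hg⟩
    choose Z hZ g hfg hg using hseq
    have hdet : ∀ a b : X, (∀ z ∈ ⋃ n, Z n, (a ∈ U z ↔ b ∈ U z)) → f a = f b := by
      intro a b hab
      have hle : ∀ n : ℕ, dist (f a) (f b) ≤ 2 * (1 / (n + 1 : ℝ)) := by
        intro n
        have h1 := hg n a b fun z hz => hab z (mem_iUnion.2 ⟨n, hz⟩)
        have h2 := (ContinuousMap.dist_apply_le_dist (f := f) (g := g n) a).trans (hfg n).le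
        have h3 := (ContinuousMap.dist_apply_le_dist (f := f) (g := g n) b).trans (hfg n).le
        calc dist (f a) (f b) ≤ dist (f a) (g n a) + dist (g n a) (f b) := dist_triangle _ _ _
          _ = dist (f a) (g n a) + dist (f b) (g n b) := by rw [h1, dist_comm (g n b)]
          _ ≤ 2 * (1 / (n + 1 : ℝ)) := by linarith
      have hlim : Filter.Tendsto (fun n : ℕ => 2 * (1 / (n + 1 : ℝ))) Filter.atTop (𝓝 (2 * 0)) :=
        tendsto_one_div_add_atTop_nhds_zero_nat.const_mul 2
      have h0 : dist (f a) (f b) ≤ 0 := by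
        have := ge_of_tendsto' hlim hle
        simpa using this
      exact dist_le_zero.1 h0
    have hsub : {x ∈ {x | x ∉ S x} | f x ≠ f (y x)} ⊆ ⋃ z ∈ ⋃ n, Z n, {x | e x ≤ e z} := by
      rintro x ⟨hx, hfx⟩
      by_contra hcon
      apply hfx
      apply hdet
      intro z hz
      apply hy2 x
      apply sub_clo ρ U
      by_contra hlt
      exact hcon (mem_biUnion hz (show e x ≤ e z from not_lt.1 hlt))
    refine Set.Countable.mono hsub ?_
    refine (countable_iUnion hZ).biUnion fun z _ => ?_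
    exact (countable_Iic (e z)).preimage e.injective

/-- basic open sets of `C_p(X)` with rational bounds -/
def O (l : List (X × ℚ × ℚ)) : Set C(X, ℝ) :=
  {g | ∀ t ∈ l, (t.2.1 : ℝ) < g t.1 ∧ g t.1 < (t.2.2 : ℝ)}

/-- the topology of pointwise convergence -/
abbrev Tp (X : Type) [TopologicalSpace X] : TopologicalSpace C(X, ℝ) :=
  TopologicalSpace.induced (fun f : C(X, ℝ) => (f : X → ℝ)) inferInstance

omit [T2Space X] [CompactSpace X] in
theorem O_open (l : List (X × ℚ × ℚ)) : @IsOpen C(X, ℝ) (Tp X) (O l) := by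
  rw [isOpen_induced_iff]
  refine ⟨⋂ t ∈ {t | t ∈ l}, {h : X → ℝ | (t.2.1 : ℝ) < h t.1 ∧ h t.1 < (t.2.2 : ℝ)}, ?_, ?_⟩
  · refine (List.finite_toSet l).isOpen_biInter fun t _ => ?_
    exact (isOpen_lt continuous_const (continuous_apply t.1)).inter
      (isOpen_lt (continuous_apply t.1) continuous_const)
  · ext g
    simp only [mem_preimage, mem_iInter, mem_setOf_eq, O]

omit [T2Space X] [CompactSpace X] in
theorem ne_open (a b : X) : @IsOpen C(X, ℝ) (Tp X) {g | g a ≠ g b} := by
  rw [isOpen_induced_iff]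
  exact ⟨{h : X → ℝ | h a ≠ h b}, isOpen_ne_fun (continuous_apply a) (continuous_apply b), rfl⟩

omit [T2Space X] [CompactSpace X] in
theorem O_base {V : Set C(X, ℝ)} (hV : @IsOpen C(X, ℝ) (Tp X) V) {g : C(X, ℝ)} (hg : g ∈ V) :
    ∃ l, g ∈ O l ∧ O l ⊆ V := by
  rw [isOpen_induced_iff] at hV
  obtain ⟨V', hV', rfl⟩ := hV
  rw [isOpen_pi_iff] at hV'
  obtain ⟨I, u, hu, hIu⟩ := hV' _ hg
  have hex : ∀ i : X, ∃ q : ℚ × ℚ, i ∈ I → (q.1 : ℝ) < g i ∧ g i < (q.2 : ℝ) ∧
      Ioo (q.1 : ℝ) q.2 ⊆ u i := by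
    intro i
    by_cases hi : i ∈ I
    · obtain ⟨ε, hε, hball⟩ := Metric.isOpen_iff.1 (hu i hi).1 (g i) (hu i hi).2
      obtain ⟨q1, h1, h2⟩ := exists_rat_btwn (show g i - ε < g i by linarith)
      obtain ⟨q2, h3, h4⟩ := exists_rat_btwn (show g i < g i + ε by linarith)
      refine ⟨(q1, q2), fun _ => ⟨h2, h3, ?_⟩⟩
      intro r hr
      apply hball
      rw [Metric.mem_ball, Real.dist_eq, abs_lt]
      constructor
      · have := hr.1; simp only at this; linarith
      · have := hr.2; simp only at this; linarith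
    · exact ⟨(0, 0), fun h => absurd h hi⟩
  choose q hq using hex
  refine ⟨I.toList.map fun i => (i, (q i).1, (q i).2), ?_, ?_⟩
  · intro t ht
    rw [List.mem_map] at ht
    obtain ⟨i, hi, rfl⟩ := ht
    have := hq i (Finset.mem_toList.1 hi)
    exact ⟨this.1, this.2.1⟩
  · intro g' hg'
    apply hIu
    intro i hi
    have h1 := hg' (i, (q i).1, (q i).2) (List.mem_map.2 ⟨i, Finset.mem_toList.2 hi, rfl⟩)
    exact (hq i hi).2.2 ⟨h1.1, h1.2⟩

theorem O_ne (l : List (X × ℚ × ℚ)) (hl : (O l : Set C(X, ℝ)).Nonempty) {a b : X} (hab : a ≠ b) :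
    (O l ∩ {g : C(X, ℝ) | g a ≠ g b}).Nonempty := by
  obtain ⟨g, hg⟩ := hl
  by_cases hgab : g a = g b
  · obtain ⟨k, hk0, hk1, -⟩ := exists_continuous_zero_one_of_isClosed
      (isClosed_singleton (x := a)) (isClosed_singleton (x := b))
      (by rw [disjoint_singleton]; exact hab)
    have hka : k a = 0 := hk0 (mem_singleton a)
    have hkb : k b = 1 := hk1 (mem_singleton b)
    have hopen : IsOpen {ε : ℝ | ∀ t ∈ l, (t.2.1 : ℝ) < g t.1 + ε * k t.1 ∧
        g t.1 + ε * k t.1 < (t.2.2 : ℝ)} := by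
      have : {ε : ℝ | ∀ t ∈ l, (t.2.1 : ℝ) < g t.1 + ε * k t.1 ∧
          g t.1 + ε * k t.1 < (t.2.2 : ℝ)} = ⋂ t ∈ {t | t ∈ l}, {ε : ℝ |
          (t.2.1 : ℝ) < g t.1 + ε * k t.1 ∧ g t.1 + ε * k t.1 < (t.2.2 : ℝ)} := by
        ext ε
        simp only [mem_iInter, mem_setOf_eq]
      rw [this]
      refine (List.finite_toSet l).isOpen_biInter fun t _ => ?_
      have hcont : Continuous (fun ε : ℝ => g t.1 + ε * k t.1) :=
        continuous_const.add (continuous_id.mul continuous_const)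
      exact (isOpen_lt continuous_const hcont).inter (isOpen_lt hcont continuous_const)
    have h0 : (0 : ℝ) ∈ {ε : ℝ | ∀ t ∈ l, (t.2.1 : ℝ) < g t.1 + ε * k t.1 ∧
        g t.1 + ε * k t.1 < (t.2.2 : ℝ)} := by
      intro t ht
      simpa using hg t ht
    obtain ⟨δ, hδ, hball⟩ := Metric.isOpen_iff.1 hopen 0 h0
    have hmem : δ / 2 ∈ Metric.ball (0 : ℝ) δ := by
      rw [Metric.mem_ball, Real.dist_eq, sub_zero, abs_of_pos (by linarith)]
      linarith
    refine ⟨g + (δ / 2) • k, ?_, ?_⟩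
    · intro t ht
      have := hball hmem t ht
      simpa using this
    · show (g + (δ / 2) • k) a ≠ (g + (δ / 2) • k) b
      simp only [ContinuousMap.add_apply, ContinuousMap.smul_apply, hka, hkb, hgab]
      simp only [smul_eq_mul, mul_zero, add_zero, mul_one]
      linarith
  · exact ⟨g, hg, hgab⟩

end Main

/-- For a scattered compact space of cardinality at most `ℵ₁`, the space `C_p(X)` has a
point-countable π-base. -/
theorem result (X : Type) [TopologicalSpace X] [T2Space X] [CompactSpace X]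
    (hs : ∀ s : Set X, s.Nonempty → ∃ x ∈ s, ∃ U : Set X, IsOpen U ∧ U ∩ s = {x})
    (hcard : Cardinal.mk X ≤ Cardinal.aleph 1) :
    ∃ 𝓑 : Set (Set C(X, ℝ)),
      (∀ B ∈ 𝓑,
        @IsOpen C(X, ℝ)
          (TopologicalSpace.induced (fun f : C(X, ℝ) => (f : X → ℝ)) inferInstance) B
        ∧ B.Nonempty) ∧
      (∀ U : Set C(X, ℝ),
        @IsOpen C(X, ℝ)
          (TopologicalSpace.induced (fun f : C(X, ℝ) => (f : X → ℝ)) inferInstance) U →
        U.Nonempty → ∃ B ∈ 𝓑, B ⊆ U) ∧
      (∀ f : C(X, ℝ), {B ∈ 𝓑 | f ∈ B}.Countable) := by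
  classical
  by_cases hX : Countable X
  · -- countable case
    refine ⟨{B | ∃ l : List (X × ℚ × ℚ), B = O l ∧ B.Nonempty}, ?_, ?_, ?_⟩
    · rintro B ⟨l, rfl, hne⟩
      exact ⟨O_open l, hne⟩
    · rintro U hU ⟨g, hg⟩
      obtain ⟨l, hl, hlU⟩ := O_base hU hg
      exact ⟨O l, ⟨l, rfl, g, hl⟩, hlU⟩
    · intro f
      refine (countable_range (fun l : List (X × ℚ × ℚ) => (O l : Set C(X, ℝ)))).mono ?_
      rintro B ⟨⟨l, rfl, _⟩, _⟩
      exact ⟨l, rfl⟩
  · have hunc : Uncountable X := by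
      rw [← not_countable_iff]; exact hX
    obtain ⟨B, y, hB, hy, hrare⟩ := rare_pairs hs hcard hunc
    have hBinf : Cardinal.aleph 1 ≤ Cardinal.mk B := by
      rw [← Cardinal.succ_aleph0, Order.succ_le_iff]
      by_contra hcon
      exact hB (Cardinal.le_aleph0_iff_set_countable.1 (not_lt.1 hcon))
    have hInf : Infinite X := inferInstance
    have hL : Cardinal.mk (List (X × ℚ × ℚ)) ≤ Cardinal.mk B := by
      rw [Cardinal.mk_list_eq_mk]
      refine le_trans ?_ hBinf
      rw [Cardinal.mk_prod, Cardinal.lift_id, Cardinal.lift_id]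
      have h2 : Cardinal.mk (ℚ × ℚ) ≤ Cardinal.aleph 1 :=
        Cardinal.mk_le_aleph0.trans Cardinal.aleph0_lt_aleph_one.le
      exact (mul_le_mul' hcard h2).trans (Cardinal.mul_eq_self (Cardinal.aleph0_le_aleph 1)).le
    obtain ⟨φ⟩ := hL
    refine ⟨{V | ∃ l : List (X × ℚ × ℚ), (O l : Set C(X, ℝ)).Nonempty ∧
      V = O l ∩ {g : C(X, ℝ) | g (φ l : X) ≠ g (y (φ l : X))}}, ?_, ?_, ?_⟩
    · rintro V ⟨l, hne, rfl⟩
      refine ⟨?_, O_ne l hne (hy _ (φ l).2).symm⟩
      exact @IsOpen.inter C(X, ℝ) (Tp X) _ _ (O_open l) (ne_open _ _)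
    · rintro U hU ⟨g, hg⟩
      obtain ⟨l, hl, hlU⟩ := O_base hU hg
      exact ⟨_, ⟨l, ⟨g, hl⟩, rfl⟩, inter_subset_left.trans hlU⟩
    · intro f
      have hc : {l : List (X × ℚ × ℚ) | f (φ l : X) ≠ f (y (φ l : X))}.Countable := by
        have h1 : {l : List (X × ℚ × ℚ) | f (φ l : X) ≠ f (y (φ l : X))} =
            (fun l => (φ l : X)) ⁻¹' {x ∈ B | f x ≠ f (y x)} := by
          ext l
          simp only [mem_setOf_eq, mem_preimage]
          exact ⟨fun h => ⟨(φ l).2, h⟩, fun h => h.2⟩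
        rw [h1]
        exact (hrare f).preimage (Subtype.val_injective.comp φ.injective)
      refine (hc.image (fun l => O l ∩ {g : C(X, ℝ) | g (φ l : X) ≠ g (y (φ l : X))})).mono ?_
      rintro V ⟨⟨l, _, rfl⟩, hf⟩
      exact ⟨l, hf.2, rfl⟩

end Pool.Agent.Results.MP_c0a969_gt.SizeAlephOne
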